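import Pool.Agent.Helper866.ThurstonDefs
import Pool.Agent.Helper866.ThurstonProof

set_option autoImplicit false

namespace Pool.Agent.Results.MP_c41128_gt.FuchsianMissingDivisor

/-! Checks on the model: the four half twists are complex reflections of order ten in roots whose
Gram matrix is `herm_root`; they satisfy the relations of the sphere braid group on five strands up
to scalars, and the Hermitian form has signature `(2, 1)`. -/

/-- a half twist multiplies its root by `exp (iπ/5)` and fixes the orthogonal complement -/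
theorem halfTwist_root (i : Fin 4) : halfTwist i (root i) = mu • root i := by
  rw [halfTwist_apply, herm_root_self]
  ext j
  simp only [Pi.add_apply, Pi.smul_apply, smul_eq_mul]
  ring

theorem halfTwist_orth (i : Fin 4) (x : Fin 3 → ℂ) (h : herm x (root i) = 0) :
    halfTwist i x = x := by
  rw [halfTwist_apply, h]; simp

/-- the braid relations -/
theorem braid_relations :
    halfTwist 0 * halfTwist 1 * halfTwist 0 = halfTwist 1 * halfTwist 0 * halfTwist 1 ∧
    halfTwist 1 * halfTwist 2 * halfTwist 1 = halfTwist 2 * halfTwist 1 * halfTwist 2 ∧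
    halfTwist 2 * halfTwist 3 * halfTwist 2 = halfTwist 3 * halfTwist 2 * halfTwist 3 ∧
    halfTwist 0 * halfTwist 2 = halfTwist 2 * halfTwist 0 ∧
    halfTwist 0 * halfTwist 3 = halfTwist 3 * halfTwist 0 ∧
    halfTwist 1 * halfTwist 3 = halfTwist 3 * halfTwist 1 :=
  ⟨braid01, braid12, braid23, comm02, comm03, comm13⟩

/-- the relation of the sphere, up to a scalar -/
theorem sphere_relation (x : Fin 3 → ℂ) :
    (halfTwist 0 * halfTwist 1 * halfTwist 2 * halfTwist 3 * halfTwist 3 * halfTwist 2 *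
      halfTwist 1 * halfTwist 0) x = (-mu) • x := by
  have h := ((((((rep_halfTwist 0).mul (rep_halfTwist 1)).mul (rep_halfTwist 2)).mul
    (rep_halfTwist 3)).mul (rep_halfTwist 3)).mul (rep_halfTwist 2)).mul (rep_halfTwist 1)
  have h2 := h.mul (rep_halfTwist 0)
  have h3 : M3.mul (M3.mul (M3.mul (M3.mul (M3.mul (M3.mul (M3.mul (RM 0) (RM 1)) (RM 2)) (RM 3))
      (RM 3)) (RM 2)) (RM 1)) (RM 0) =
      ⟨⟨0, 0, 0, 1⟩, 0, 0, 0, ⟨0, 0, 0, 1⟩, 0, 0, 0, ⟨0, 0, 0, 1⟩⟩ := by decide +kernel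
  have h4 : Z5.ev z1 ⟨0, 0, 0, 1⟩ = -mu := by
    rw [← ev1_mu, ← Z5.ev_neg]; exact ev_eq_of_eq (by decide)
  rw [h2 x, h3]
  ext j
  fin_cases j <;> simp [M3.act, Z5.ev_zero, h4]

/-- the Hermitian form has signature `(2, 1)` -/
theorem signature : ∃ T : (Fin 3 → ℂ) → (Fin 3 → ℂ), Function.Bijective T ∧
    (∀ x y, T (x + y) = T x + T y) ∧ (∀ (c : ℂ) x, T (c • x) = c • T x) ∧
    ∀ y, (herm (T y) (T y)).re =
      4 * (‖y 0‖ ^ 2 + ‖y 1‖ ^ 2 - Real.goldenRatio * ‖y 2‖ ^ 2) := by
  refine ⟨M3.act z1 BB, ⟨?_, ?_⟩, ?_, act_smul z1 BB, ?_⟩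
  · intro x y h
    have h1 := congrArg (M3.act z1 CC) h
    rw [act_CC_BB, act_CC_BB] at h1
    exact smul_right_injective _ (by norm_num : (4 : ℂ) ≠ 0) h1
  · intro y
    refine ⟨(1 / 4 : ℂ) • M3.act z1 CC y, ?_⟩
    rw [act_smul, act_BB_CC, smul_smul]
    norm_num
  · intro x y
    ext j
    fin_cases j <;> simp [M3.act] <;> ring
  · intro y
    rw [herm_BB_BB, Complex.mul_conj, Complex.mul_conj, Complex.mul_conj,
      Complex.normSq_eq_norm_sq, Complex.normSq_eq_norm_sq, Complex.normSq_eq_norm_sq, phi,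
      ← Complex.ofReal_mul, ← Complex.ofReal_add, ← Complex.ofReal_sub]
    rw [show (4 : ℂ) = ((4 : ℝ) : ℂ) by norm_num, ← Complex.ofReal_mul, Complex.ofReal_re]

/-- Thurston's lattice for five cone points of curvature `4π/5`, and even its subgroup for labelled
cone points, contains a cocompact `ℝ`-Fuchsian subgroup whose plane misses the collision locus. -/
theorem result : ∃ (W : Submodule ℝ (Fin 3 → ℂ)) (F : Subgroup ((Fin 3 → ℂ) ≃ₗ[ℂ] (Fin 3 → ℂ))),
    F ≤ DeltaPure ∧ IsRFuchsian F W ∧ ActsCocompactly F W ∧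
      Disjoint (planeOf W) collisionLocus := by
  refine ⟨WW, DeltaPure ⊓ FF, inf_le_left, ⟨isRealPlane_WW,
    discrete_full.mono (inf_le_left.trans pure_le_full), ?_⟩, cocompact_pure, disjoint_WW⟩
  rintro g ⟨-, hg⟩
  exact ⟨herm_full hg.1, hg.2⟩

end Pool.Agent.Results.MP_c41128_gt.FuchsianMissingDivisor
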